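import Mathlib

/-!
# Clusters of base `b` digits
-/

set_option autoImplicit false

namespace Pool.Agent.J4.H23.SF

open Finset

theorem cut {ι : Type*} (b : ℕ) (hb : 2 ≤ b) (x : ι → ℕ) (c : ι → ℤ) (G y : ℕ) (I : Finset ι)
    (hc : ∑ a ∈ I, |c a| < (b : ℤ) ^ (G + 1)) (hsum : ∑ a ∈ I, c a * (b : ℤ) ^ x a = 0)
    (hy : ∀ a ∈ I, x a ≤ y ∨ y + G < x a) :
    ∑ a ∈ I with x a ≤ y, c a * (b : ℤ) ^ x a = 0 := by
  classical
  set U := I.filter (fun a => x a ≤ y) with hU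
  set V := I.filter (fun a => ¬ x a ≤ y) with hV
  have hbZ : (1 : ℤ) ≤ b := by exact_mod_cast (by omega : 1 ≤ b)
  have hUV : ∑ a ∈ U, c a * (b : ℤ) ^ x a + ∑ a ∈ V, c a * (b : ℤ) ^ x a = 0 := by
    rw [hU, hV, Finset.sum_filter_add_sum_filter_not, hsum]
  have hdV : (b : ℤ) ^ (y + G + 1) ∣ ∑ a ∈ V, c a * (b : ℤ) ^ x a := by
    refine Finset.dvd_sum fun i hi => ?_
    rw [hV, Finset.mem_filter] at hi
    have h1 : y + G + 1 ≤ x i := by
      rcases hy i hi.1 with h | h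
      · exact absurd h hi.2
      · omega
    exact Dvd.dvd.mul_left (pow_dvd_pow _ h1) _
  have hdU : (b : ℤ) ^ (y + G + 1) ∣ ∑ a ∈ U, c a * (b : ℤ) ^ x a := by
    have : ∑ a ∈ U, c a * (b : ℤ) ^ x a = -∑ a ∈ V, c a * (b : ℤ) ^ x a := by linarith
    rw [this]
    exact hdV.neg_right
  have hle : |∑ a ∈ U, c a * (b : ℤ) ^ x a| < (b : ℤ) ^ (y + G + 1) := by
    calc |∑ a ∈ U, c a * (b : ℤ) ^ x a| ≤ ∑ i ∈ U, |c i * (b : ℤ) ^ x i| :=
          Finset.abs_sum_le_sum_abs _ _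
      _ ≤ ∑ i ∈ U, |c i| * (b : ℤ) ^ y := by
          refine Finset.sum_le_sum fun i hi => ?_
          rw [abs_mul, abs_of_nonneg (by positivity : (0 : ℤ) ≤ (b : ℤ) ^ x i)]
          exact mul_le_mul_of_nonneg_left (pow_le_pow_right₀ hbZ (Finset.mem_filter.1 hi).2)
            (abs_nonneg _)
      _ = (∑ i ∈ U, |c i|) * (b : ℤ) ^ y := by rw [Finset.sum_mul]
      _ ≤ (∑ i ∈ I, |c i|) * (b : ℤ) ^ y := by
          refine mul_le_mul_of_nonneg_right ?_ (by positivity)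
          exact Finset.sum_le_sum_of_subset_of_nonneg (Finset.filter_subset _ _)
            (fun _ _ _ => abs_nonneg _)
      _ < (b : ℤ) ^ (G + 1) * (b : ℤ) ^ y := by
          have : (0 : ℤ) < (b : ℤ) ^ y := by positivity
          exact mul_lt_mul_of_pos_right hc this
      _ = (b : ℤ) ^ (y + G + 1) := by rw [← pow_add]; congr 1; omega
  exact Int.eq_zero_of_abs_lt_dvd hdU hle

theorem cluster {ι : Type*} (b : ℕ) (hb : 2 ≤ b) (x : ι → ℕ) (c : ι → ℤ) (G : ℕ) (ℓ : ι → ℤ) :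
    ∀ (n : ℕ) (I : Finset ι), I.card = n → ∑ a ∈ I, |c a| < (b : ℤ) ^ (G + 1) →
    ∑ a ∈ I, c a * (b : ℤ) ^ x a = 0 →
    (∀ a ∈ I, ∀ a' ∈ I, x a ≤ x a' → x a' ≤ x a + G → ℓ a = ℓ a') →
    ∀ L : ℤ, ∑ a ∈ I, (if ℓ a = L then c a * (b : ℤ) ^ x a else 0) = 0 := by
  classical
  intro n
  induction n using Nat.strong_induction_on with
  | _ n ih =>
  intro I hIn hc hsum hℓ L
  rcases I.eq_empty_or_nonempty with rfl | hne
  · simp
  obtain ⟨a₀, ha₀, hmin⟩ := I.exists_min_image x hne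
  have hex : ∃ y, x a₀ ≤ y ∧ ∀ a ∈ I, x a ≤ y ∨ y + G < x a := by
    obtain ⟨a₁, ha₁, hmax⟩ := I.exists_max_image x hne
    exact ⟨x a₁, hmax a₀ ha₀, fun a ha => Or.inl (hmax a ha)⟩
  set y := Nat.find hex with hy
  obtain ⟨hy0, hy1⟩ := Nat.find_spec hex
  have hcut := cut b hb x c G y I hc hsum hy1
  have hlab : ∀ k : ℕ, ∀ a ∈ I, x a ≤ y → x a = k → ℓ a = ℓ a₀ := by
    intro k
    induction k using Nat.strong_induction_on with
    | _ k ihk =>
    intro a haI hay hak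
    by_cases h0 : x a ≤ x a₀ + G
    · exact (hℓ a₀ ha₀ a haI (hmin a haI) h0).symm
    push Not at h0
    have hW : (I.filter (fun b => x b < x a)).Nonempty :=
      ⟨a₀, Finset.mem_filter.2 ⟨ha₀, by omega⟩⟩
    obtain ⟨bs, hbs, hbmax⟩ := Finset.exists_max_image _ x hW
    rw [Finset.mem_filter] at hbs
    by_cases h1 : x a ≤ x bs + G
    · rw [← hℓ bs hbs.1 a haI hbs.2.le h1]
      exact ihk (x bs) (by omega) bs hbs.1 (by omega) rfl
    · exfalso
      push Not at h1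
      have h2 : x a₀ ≤ x bs ∧ ∀ a ∈ I, x a ≤ x bs ∨ x bs + G < x a := by
        refine ⟨hmin bs hbs.1, fun a' ha' => ?_⟩
        by_cases h3 : x a' < x a
        · left; exact hbmax a' (Finset.mem_filter.2 ⟨ha', h3⟩)
        · right; omega
      have h3 : y ≤ x bs := Nat.find_min' hex h2
      omega
  set U := I.filter (fun a => x a ≤ y) with hU
  set V := I.filter (fun a => ¬ x a ≤ y) with hV
  have hsplit : ∀ f : ι → ℤ, ∑ a ∈ I, f a = ∑ a ∈ U, f a + ∑ a ∈ V, f a := by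
    intro f; rw [hU, hV, Finset.sum_filter_add_sum_filter_not]
  have hVs : ∑ a ∈ V, c a * (b : ℤ) ^ x a = 0 := by
    have := hsplit (fun a => c a * (b : ℤ) ^ x a)
    rw [hsum, hcut] at this
    linarith
  have hVc : V.card < n := by
    rw [← hIn]
    apply Finset.card_lt_card
    rw [hV, Finset.filter_ssubset]
    exact ⟨a₀, ha₀, not_not.2 hy0⟩
  have hV' := ih V.card hVc V rfl
    (lt_of_le_of_lt (Finset.sum_le_sum_of_subset_of_nonneg (Finset.filter_subset _ _)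
      (fun _ _ _ => abs_nonneg _)) hc) hVs
    (fun a ha a' ha' => hℓ a (Finset.mem_filter.1 ha).1 a' (Finset.mem_filter.1 ha').1) L
  rw [hsplit, hV', add_zero]
  by_cases hL : ℓ a₀ = L
  · rw [← hcut]
    refine Finset.sum_congr rfl fun a ha => ?_
    have ha' := Finset.mem_filter.1 ha
    rw [if_pos ((hlab (x a) a ha'.1 ha'.2 rfl).trans hL)]
  · refine Finset.sum_eq_zero fun a ha => ?_
    have ha' := Finset.mem_filter.1 ha
    rw [if_neg]
    rw [hlab (x a) a ha'.1 ha'.2 rfl]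
    exact hL

end Pool.Agent.J4.H23.SF
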