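import Mathlib

/-!
# Minors of matrices with two incidence parts, and a Cramer alternative
-/

set_option autoImplicit false

namespace Pool.Agent.J4.H23.SF

open Finset

/-- zero or a unit vector -/
def UV {p : ℕ} (v : Fin p → ℤ) : Prop := v = 0 ∨ ∃ b, v = Pi.single b 1

/-- a difference of two vectors, each zero or a unit vector -/
def Inc {p : ℕ} (v : Fin p → ℤ) : Prop := ∃ u w, UV u ∧ UV w ∧ v = u - w

theorem UV.comp {p : ℕ} {v : Fin (p + 1) → ℤ} (hv : UV v) (c : Fin (p + 1)) :
    UV (fun b => v (c.succAbove b)) := by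
  rcases hv with rfl | ⟨b, rfl⟩
  · left; rfl
  · by_cases hbc : b = c
    · subst hbc
      left
      ext x
      simp [Fin.succAbove_ne]
    · obtain ⟨b', hb'⟩ := Fin.exists_succAbove_eq hbc
      right
      refine ⟨b', ?_⟩
      ext x
      rw [← hb']
      simp [Pi.single_apply]

theorem Inc.comp {p : ℕ} {v : Fin (p + 1) → ℤ} (hv : Inc v) (c : Fin (p + 1)) :
    Inc (fun b => v (c.succAbove b)) := by
  obtain ⟨u, w, hu, hw, rfl⟩ := hv
  exact ⟨_, _, hu.comp c, hw.comp c, rfl⟩

theorem abs_det_le_one : ∀ (p : ℕ) (M : Matrix (Fin p) (Fin p) ℤ), (∀ a, Inc (M a)) →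
    |M.det| ≤ 1 := by
  intro p
  induction p with
  | zero => intro M _; simp
  | succ p ih =>
    intro M hM
    -- expansion along a row with a single entry
    have key : ∀ a : Fin (p + 1), ∀ c : Fin (p + 1), (∀ b, b ≠ c → M a b = 0) → |M a c| ≤ 1 →
        |M.det| ≤ 1 := by
      intro a c h0 h1
      rw [Matrix.det_succ_row M a, Finset.sum_eq_single c]
      · rw [abs_mul, abs_mul, abs_pow, abs_neg, abs_one, one_pow, one_mul]
        have h2 := ih (M.submatrix a.succAbove c.succAbove) (fun x => (hM _).comp c)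
        calc |M a c| * |(M.submatrix a.succAbove c.succAbove).det| ≤ 1 * 1 :=
              mul_le_mul h1 h2 (abs_nonneg _) zero_le_one
          _ = 1 := one_mul 1
      · intro b _ hb
        rw [h0 b hb]; ring
      · intro h; exact absurd (Finset.mem_univ _) h
    choose u w hu hw huw using hM
    by_cases hall : ∀ a, (∃ b, u a = Pi.single b 1) ∧ (∃ b, w a = Pi.single b 1)
    · have h1 : M.mulVec 1 = 0 := by
        ext a
        obtain ⟨⟨b, hb⟩, ⟨b', hb'⟩⟩ := hall a
        have : M.mulVec 1 a = ∑ x, M a x := by simp [Matrix.mulVec, dotProduct]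
        rw [this, huw a, hb, hb']
        simp [Finset.sum_sub_distrib, Finset.sum_pi_single']
      have h2 : M.det = 0 := Matrix.exists_mulVec_eq_zero_iff.1 ⟨1, one_ne_zero, h1⟩
      rw [h2]; simp
    · push Not at hall
      obtain ⟨a, ha⟩ := hall
      rcases hu a with h | ⟨b, hb⟩
      · rcases hw a with h' | ⟨b', hb'⟩
        · refine key a 0 (fun b _ => ?_) ?_
          · rw [huw, h, h']; simp
          · rw [huw, h, h']; simp
        · refine key a b' (fun b hb => ?_) ?_
          · rw [huw, h, hb']; simp [hb]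
          · rw [huw, h, hb']; simp
      · rcases hw a with h' | ⟨b', hb'⟩
        · refine key a b (fun b'' hb'' => ?_) ?_
          · rw [huw, h', hb]; simp [hb'']
          · rw [huw, h', hb]; simp
        · exact absurd hb' (ha ⟨b, hb⟩ b')

theorem det_eq_zero_of_card {p : ℕ} (M : Matrix (Fin p) (Fin p) ℤ) (I C : Finset (Fin p))
    (hc : C.card < I.card) (h : ∀ a ∈ I, ∀ b, b ∉ C → M a b = 0) : M.det = 0 := by
  classical
  rw [Matrix.det_apply']
  refine Finset.sum_eq_zero fun σ _ => ?_
  obtain ⟨a, haI, haC⟩ : ∃ a ∈ I.map σ.symm.toEmbedding, a ∉ C := by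
    apply Finset.exists_mem_notMem_of_card_lt_card
    rwa [Finset.card_map]
  obtain ⟨i, hi, rfl⟩ := Finset.mem_map.1 haI
  have h1 : M (σ (σ.symm i)) (σ.symm i) = 0 := by
    rw [Equiv.apply_symm_apply]
    exact h i hi _ haC
  have h2 : ∏ j, M (σ j) j = 0 :=
    Finset.prod_eq_zero (f := fun j => M (σ j) j) (Finset.mem_univ (σ.symm i)) h1
  rw [h2, mul_zero]

/-- The two-class bound. -/
theorem abs_det_le_choose {p : ℕ} (M : Matrix (Fin p) (Fin p) ℤ) (C : Finset (Fin p))
    (h1 : ∀ a, Inc (fun b => if b ∈ C then M a b else 0))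
    (h2 : ∀ a, Inc (fun b => if b ∈ C then 0 else M a b)) :
    |M.det| ≤ p.choose C.card := by
  classical
  set M1 : Fin p → Fin p → ℤ := fun a b => if b ∈ C then M a b else 0 with hM1
  set M2 : Fin p → Fin p → ℤ := fun a b => if b ∈ C then 0 else M a b with hM2
  have hM : (M : Fin p → Fin p → ℤ) = M1 + M2 := by
    ext a b
    simp only [hM1, hM2, Pi.add_apply]
    split_ifs <;> simp
  have hexp : M.det = ∑ I : Finset (Fin p), Matrix.det (Matrix.of (I.piecewise M1 M2)) := by
    have := (Matrix.detRowAlternating (n := Fin p) (R := ℤ)).toMultilinearMap.map_add_univ M1 M2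
    rw [← hM] at this
    exact this
  have hzero : ∀ I : Finset (Fin p), I.card ≠ C.card →
      Matrix.det (Matrix.of (I.piecewise M1 M2)) = 0 := by
    intro I hI
    rcases lt_or_gt_of_ne hI with hlt | hgt
    · apply det_eq_zero_of_card _ Iᶜ Cᶜ
      · rw [Finset.card_compl, Finset.card_compl]
        have := Finset.card_le_univ C
        rw [Fintype.card_fin] at this ⊢
        omega
      · intro a ha b hb
        have hb' : b ∈ C := by simpa using hb
        have ha' : a ∉ I := by simpa using ha
        simp [Finset.piecewise_eq_of_notMem I _ _ ha', hM2, hb']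
    · apply det_eq_zero_of_card _ I C hgt
      intro a ha b hb
      simp [Finset.piecewise_eq_of_mem I _ _ ha, hM1, hb]
  have hone : ∀ I : Finset (Fin p), |Matrix.det (Matrix.of (I.piecewise M1 M2))| ≤ 1 := by
    intro I
    apply abs_det_le_one
    intro a
    by_cases ha : a ∈ I
    · have : (Matrix.of (I.piecewise M1 M2)) a = M1 a := by
        change I.piecewise M1 M2 a = M1 a
        exact Finset.piecewise_eq_of_mem I _ _ ha
      rw [this]; exact h1 a
    · have : (Matrix.of (I.piecewise M1 M2)) a = M2 a := by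
        change I.piecewise M1 M2 a = M2 a
        exact Finset.piecewise_eq_of_notMem I _ _ ha
      rw [this]; exact h2 a
  rw [hexp]
  have e1 : ∑ I : Finset (Fin p), Matrix.det (Matrix.of (I.piecewise M1 M2))
      = ∑ I ∈ (Finset.univ : Finset (Fin p)).powersetCard C.card,
        Matrix.det (Matrix.of (I.piecewise M1 M2)) := by
    symm
    apply Finset.sum_subset (Finset.subset_univ _)
    intro I _ hI
    apply hzero
    intro hc
    exact hI (Finset.mem_powersetCard.2 ⟨Finset.subset_univ _, hc⟩)
  rw [e1]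
  calc |∑ I ∈ (Finset.univ : Finset (Fin p)).powersetCard C.card,
        Matrix.det (Matrix.of (I.piecewise M1 M2))|
      ≤ ∑ I ∈ (Finset.univ : Finset (Fin p)).powersetCard C.card,
        |Matrix.det (Matrix.of (I.piecewise M1 M2))| := Finset.abs_sum_le_sum_abs _ _
    _ ≤ ∑ I ∈ (Finset.univ : Finset (Fin p)).powersetCard C.card, 1 :=
        Finset.sum_le_sum fun I _ => hone I
    _ = p.choose C.card := by
        rw [Finset.sum_const, Finset.card_powersetCard, Finset.card_univ, Fintype.card_fin]
        simp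

/-- The Cramer alternative: a nonzero integer functional killing all rows, or the last
coordinate is small. -/
theorem cramer {Row Col : Type*} [DecidableEq Col] (K : Finset Col) (F : Row → Col → ℤ)
    (gc val : Row → ℤ) (x : Col → ℤ) (N : ℤ) (B G : ℕ)
    (hval : ∀ r, val r = ∑ c ∈ K, F r c * x c + gc r * N)
    (hG : ∀ r, |val r| ≤ G)
    (hB : ∀ (p : ℕ) (ρ : Fin p → Row) (κ : Fin p → Col), (∀ b, κ b ∈ K) →
      Function.Injective κ → |Matrix.det (Matrix.of fun a b => F (ρ a) (κ b))| ≤ B)
    (hN : ((K.card + 1) * B * G : ℕ) < N) :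
    ∃ (lam : Col → ℤ) (q : ℤ), q ≠ 0 ∧ |q| ≤ B ∧
      ∀ r, ∑ c ∈ K, F r c * lam c + gc r * q = 0 := by
  classical
  set P : ℕ → Prop := fun p => ∃ (ρ : Fin p → Row) (κ : Fin p → Col), (∀ b, κ b ∈ K) ∧
    Function.Injective κ ∧ Matrix.det (Matrix.of fun a b => F (ρ a) (κ b)) ≠ 0 with hP
  have hP0 : P 0 := ⟨Fin.elim0, Fin.elim0, fun b => b.elim0, fun b => b.elim0, by simp⟩
  have hPle : ∀ p, P p → p ≤ K.card := by
    rintro p ⟨ρ, κ, h1, h2, -⟩
    have := Finset.card_le_card_of_injOn (s := (Finset.univ : Finset (Fin p))) (t := K) κ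
      (fun b _ => h1 b) (h2.injOn)
    simpa using this
  obtain ⟨p, hp, hmax⟩ : ∃ p, P p ∧ ¬ P (p + 1) := by
    by_contra hcon
    push Not at hcon
    have : ∀ p, P p := fun p => by
      induction p with
      | zero => exact hP0
      | succ p ih => exact hcon p ih
    have := hPle _ (this (K.card + 1))
    omega
  have hpK := hPle p hp
  obtain ⟨ρ, κ, hκK, hκ, hdet⟩ := hp
  set Δ : ℤ := Matrix.det (Matrix.of fun a b => F (ρ a) (κ b)) with hΔ
  -- bordered matrices
  set A : (Row → ℤ) → Row → Matrix (Fin (p + 1)) (Fin (p + 1)) ℤ := fun φ r =>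
    Matrix.of fun a b => (Fin.cons (φ ((Fin.cons r ρ : Fin (p + 1) → Row) a))
      (fun b' => F ((Fin.cons r ρ : Fin (p + 1) → Row) a) (κ b')) : Fin (p + 1) → ℤ) b with hA
  set mi : Row → Fin (p + 1) → ℤ := fun r a => Matrix.det (Matrix.of fun i j =>
    F ((Fin.cons r ρ : Fin (p + 1) → Row) (a.succAbove i)) (κ j)) with hmi
  have hAdet : ∀ φ r, (A φ r).det = ∑ a : Fin (p + 1), (-1) ^ (a : ℕ) *
      φ ((Fin.cons r ρ : Fin (p + 1) → Row) a) * mi r a := by
    intro φ r
    rw [Matrix.det_succ_column_zero]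
    refine Finset.sum_congr rfl fun a _ => ?_
    congr 1
  have hmiB : ∀ r a, |mi r a| ≤ B := by
    intro r a
    exact hB p (fun i => (Fin.cons r ρ : Fin (p + 1) → Row) (a.succAbove i)) κ hκK hκ
  have hlin : ∀ r, (A val r).det = ∑ c ∈ K, x c * (A (fun r => F r c) r).det + N * (A gc r).det := by
    intro r
    simp only [hAdet, Finset.mul_sum]
    rw [Finset.sum_comm, ← Finset.sum_add_distrib]
    refine Finset.sum_congr rfl fun a _ => ?_
    rw [hval]
    rw [mul_add, add_mul, Finset.mul_sum, Finset.sum_mul]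
    congr 1
    · refine Finset.sum_congr rfl fun c _ => ?_
      ring
    · ring
  have hzero : ∀ r, ∀ c ∈ K, (A (fun r => F r c) r).det = 0 := by
    intro r c hc
    have hAe : A (fun r => F r c) r = Matrix.of fun a b =>
        F ((Fin.cons r ρ : Fin (p + 1) → Row) a) ((Fin.cons c κ : Fin (p + 1) → Col) b) := by
      ext a b
      simp only [hA, Matrix.of_apply]
      refine Fin.cases ?_ (fun b' => ?_) b
      · simp
      · simp
    by_cases hcκ : c ∈ Set.range κ
    · obtain ⟨b, hb⟩ := hcκ
      rw [hAe]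
      apply Matrix.det_zero_of_column_eq (i := 0) (j := b.succ) (Fin.succ_ne_zero b).symm
      intro a
      simp [hb]
    · by_contra hne
      apply hmax
      refine ⟨Fin.cons r ρ, Fin.cons c κ, ?_, ?_, ?_⟩
      · intro b
        refine Fin.cases ?_ (fun b' => ?_) b
        · simpa using hc
        · simpa using hκK b'
      · rw [Fin.cons_injective_iff]
        exact ⟨hcκ, hκ⟩
      · rw [← hAe]; exact hne
  have hkey : ∀ r, (A gc r).det = 0 := by
    intro r
    by_contra hne
    have h1 := hlin r
    rw [Finset.sum_eq_zero (fun c hc => by rw [hzero r c hc, mul_zero]), zero_add] at h1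
    have h2 : |(A val r).det| ≤ (K.card + 1) * B * G := by
      rw [hAdet]
      calc |∑ a : Fin (p + 1), (-1) ^ (a : ℕ) * val ((Fin.cons r ρ : Fin (p + 1) → Row) a) * mi r a|
          ≤ ∑ a : Fin (p + 1), |(-1) ^ (a : ℕ) * val ((Fin.cons r ρ : Fin (p + 1) → Row) a) * mi r a| :=
            Finset.abs_sum_le_sum_abs _ _
        _ ≤ ∑ a : Fin (p + 1), (G : ℤ) * B := by
            refine Finset.sum_le_sum fun a _ => ?_
            rw [abs_mul, abs_mul, abs_pow, abs_neg, abs_one, one_pow, one_mul]
            exact mul_le_mul (hG _) (hmiB r a) (abs_nonneg _) (by positivity)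
        _ = (p + 1) * ((G : ℤ) * B) := by
            rw [Finset.sum_const, Finset.card_univ, Fintype.card_fin]
            simp
        _ ≤ (K.card + 1) * ((G : ℤ) * B) := by
            apply mul_le_mul_of_nonneg_right _ (by positivity)
            have : (p : ℤ) ≤ K.card := by exact_mod_cast hpK
            linarith
        _ = (K.card + 1) * B * G := by ring
    rw [h1, abs_mul] at h2
    have hNpos : 0 < N := lt_of_le_of_lt (by positivity) hN
    rw [abs_of_pos hNpos] at h2
    have h3 : 1 ≤ |(A gc r).det| := Int.one_le_abs hne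
    have h4 : N ≤ N * |(A gc r).det| := by nlinarith
    push_cast at hN
    linarith
  -- the functional
  set cof : Fin p → ℤ := fun b' => (-1) ^ ((b'.succ : Fin (p + 1)) : ℕ) * Matrix.det (Matrix.of fun i j =>
    (Fin.cons (gc (ρ i)) (fun b'' => F (ρ i) (κ b'')) : Fin (p + 1) → ℤ) (b'.succ.succAbove j)) with hcof
  have hrow : ∀ r, (A gc r).det = gc r * Δ + ∑ b', F r (κ b') * cof b' := by
    intro r
    rw [Matrix.det_succ_row_zero, Fin.sum_univ_succ]
    congr 1
    · have : (A gc r).submatrix Fin.succ (Fin.succAbove 0) = Matrix.of fun a b => F (ρ a) (κ b) := by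
        ext a b
        simp [hA]
      rw [this, ← hΔ]
      simp [hA]
    · refine Finset.sum_congr rfl fun b' _ => ?_
      have : (A gc r).submatrix Fin.succ b'.succ.succAbove = Matrix.of fun i j =>
          (Fin.cons (gc (ρ i)) (fun b'' => F (ρ i) (κ b'')) : Fin (p + 1) → ℤ)
            (b'.succ.succAbove j) := by
        ext a b
        simp [hA]
      rw [this]
      have h2 : A gc r 0 b'.succ = F r (κ b') := by simp [hA]
      rw [h2, hcof]
      ring
  refine ⟨fun c => ∑ b', if κ b' = c then cof b' else 0, Δ, hdet, hB p ρ κ hκK hκ, fun r => ?_⟩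
  have h1 := hkey r
  rw [hrow] at h1
  have h2 : ∑ c ∈ K, F r c * ∑ b', (if κ b' = c then cof b' else 0) = ∑ b', F r (κ b') * cof b' := by
    simp only [Finset.mul_sum]
    rw [Finset.sum_comm]
    refine Finset.sum_congr rfl fun b' _ => ?_
    rw [Finset.sum_eq_single (κ b')]
    · simp
    · intro c _ hc
      rw [if_neg (Ne.symm hc), mul_zero]
    · intro h; exact absurd (hκK b') h
  rw [h2]
  linarith

end Pool.Agent.J4.H23.SF
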