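import Pool.Agent.J4.H23.SF.Multi
import Pool.Agent.J4.H23.SF.Cluster

/-!
# From a factorisation into sparse factors to a factorisation of a binomial
-/

set_option autoImplicit false

namespace Pool.Agent.J4.H23.SF.R

open Finset Polynomial

theorem uv_ind {p : ℕ} {α : Type*} [DecidableEq α] (κ : Fin p → α) (hκ : Function.Injective κ)
    (z : α) : UV (fun b => if κ b = z then (1 : ℤ) else 0) := by
  classical
  by_cases h : ∃ b, κ b = z
  · obtain ⟨b, hb⟩ := h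
    right
    refine ⟨b, ?_⟩
    ext b'
    rw [Pi.single_apply]
    have : κ b' = z ↔ b' = b := by
      constructor
      · intro h; exact hκ (h.trans hb.symm)
      · rintro rfl; exact hb
    simp only [this]
  · left
    ext b
    push Not at h
    simp [h b]

variable {ι : Type*} [Fintype ι] [DecidableEq ι]

/-- exponent of a term -/
def tx (n : ℕ) : (ι → ℕ) ⊕ Bool → ℕ
  | Sum.inl f => ∑ k, f k
  | Sum.inr false => 0
  | Sum.inr true => n

/-- column vector of a term -/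
def tv : (ι → ℕ) ⊕ Bool → (Σ _ : ι, ℕ) → ℤ
  | Sum.inl f, c => if c = ⟨c.1, f c.1⟩ then 1 else 0
  | Sum.inr _, _ => 0

/-- last coordinate of a term -/
def tg : (ι → ℕ) ⊕ Bool → ℤ
  | Sum.inr true => 1
  | _ => 0

/-- coefficient of a term -/
def tc (u : ι → ℕ → ℤ) (c₁ c₀ : ℤ) : (ι → ℕ) ⊕ Bool → ℤ
  | Sum.inl f => ∏ k, u k (f k)
  | Sum.inr false => -c₀
  | Sum.inr true => -c₁

/-- exponent of a column -/
def cx : (Σ _ : ι, ℕ) → ℤ := fun c => c.2

omit [Fintype ι] in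
theorem uv_class {p : ℕ} (κ : Fin p → (Σ _ : ι, ℕ)) (hκ : Function.Injective κ)
    (τ : (ι → ℕ) ⊕ Bool) (k : ι) :
    UV (fun b => if (κ b).1 = k then tv τ (κ b) else 0) := by
  rcases τ with f | b
  · have := uv_ind κ hκ ⟨k, f k⟩
    convert this using 2 with b
    rcases h : κ b with ⟨k', i⟩
    by_cases hk : k' = k
    · subst hk
      simp [tv]
    · simp [hk]
  · left
    ext b
    simp [tv]

theorem minor_bound (S : ι → Finset ℕ) (p : ℕ) (τ τ' : Fin p → (ι → ℕ) ⊕ Bool)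
    (κ : Fin p → (Σ _ : ι, ℕ))
    (hK : ∀ b, κ b ∈ Finset.univ.sigma S) (hκ : Function.Injective κ) :
    |Matrix.det (Matrix.of fun a b => tv (τ a) (κ b) - tv (τ' a) (κ b))| ≤
      (Nat.multinomial Finset.univ (fun k => (S k).card) : ℕ) := by
  classical
  have h1 := abs_det_le_multinomial (Matrix.of fun a b => tv (τ a) (κ b) - tv (τ' a) (κ b))
    (fun b => (κ b).1)
    (by
      intro k a
      refine ⟨_, _, uv_class κ hκ (τ a) k, uv_class κ hκ (τ' a) k, ?_⟩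
      ext b
      simp only [Matrix.of_apply, Pi.sub_apply]
      split_ifs <;> simp)
  refine h1.trans ?_
  have h2 := multinomial_mono (Finset.univ : Finset ι)
    (fun k => (Finset.univ.filter (fun b => (κ b).1 = k)).card) (fun k => (S k).card) (by
      intro k _
      have h3 : ((Finset.univ.filter (fun b => (κ b).1 = k)).image κ) ⊆
          (S k).map ⟨fun i => (⟨k, i⟩ : Σ _ : ι, ℕ), fun i j h => by simpa using h⟩ := by
        intro z hz
        obtain ⟨b, hb, rfl⟩ := Finset.mem_image.1 hz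
        have hb' : (κ b).1 = k := by simpa using hb
        have hb'' := hK b
        rw [Finset.mem_sigma] at hb''
        rw [Finset.mem_map]
        refine ⟨(κ b).2, ?_, ?_⟩
        · rw [← hb']; exact hb''.2
        · rcases h : κ b with ⟨k', i⟩
          rw [h] at hb'
          simp only at hb'
          subst hb'
          rfl
      have h4 := Finset.card_le_card h3
      rwa [Finset.card_image_of_injective _ hκ, Finset.card_map] at h4)
  exact_mod_cast h2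

/-- Removing a power of `X` from one factor -/
theorem strip (P : ℤ[X]) : ∀ (n : ℕ) (D : ι → ℤ[X]), ∏ k, D k = X ^ n * P →
    ∃ D' : ι → ℤ[X], ∏ k, D' k = P ∧ ∀ k, (D' k).eval 1 = (D k).eval 1 := by
  intro n
  induction n with
  | zero => intro D h; exact ⟨D, by simpa using h, fun _ => rfl⟩
  | succ n ih =>
    intro D h
    have hX : (X : ℤ[X]) ∣ ∏ k, D k := by rw [h, pow_succ']; exact ⟨X ^ n * P, by ring⟩
    obtain ⟨k, -, D₁, hD₁⟩ := (Prime.dvd_finsetProd_iff (prime_X (R := ℤ)) _).1 hX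
    have h1 : ∏ j, Function.update D k D₁ j = X ^ n * P := by
      apply mul_left_cancel₀ (X_ne_zero (R := ℤ))
      rw [← mul_assoc, ← pow_succ', ← h, Finset.prod_update_of_mem (Finset.mem_univ k),
        ← Finset.mul_prod_erase Finset.univ D (Finset.mem_univ k), hD₁, mul_assoc,
        Finset.sdiff_singleton_eq_erase]
    obtain ⟨D', h2, h3⟩ := ih _ h1
    refine ⟨D', h2, fun j => ?_⟩
    rw [h3]
    by_cases hj : j = k
    · subst hj
      rw [Function.update_self, hD₁]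
      simp
    · rw [Function.update_of_ne hj]

theorem engine3 (b : ℕ) (hb : 2 ≤ b) (n : ℕ) (c₁ c₀ : ℤ)
    (S : ι → Finset ℕ) (u : ι → ℕ → ℤ)
    (hde : ∏ k, ∑ i ∈ S k, u k i * (b : ℤ) ^ i = c₁ * (b : ℤ) ^ n + c₀)
    (H : ℕ) (hH : (∏ k, ∑ i ∈ S k, |u k i|) + |c₁| + |c₀| ≤ H)
    (hN : ((∑ k, (S k).card) + 1) * Nat.multinomial Finset.univ (fun k => (S k).card) *
      Nat.log b H < n) :
    ∃ q : ℕ, 0 < q ∧ q ≤ Nat.multinomial Finset.univ (fun k => (S k).card) ∧ ∃ D : ι → ℤ[X],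
      ∏ k, D k = C (c₁ * (b : ℤ) ^ n) * X ^ q + C c₀ ∧
      ∀ k, (D k).eval 1 = ∑ i ∈ S k, u k i * (b : ℤ) ^ i := by
  classical
  set G := Nat.log b H with hG
  set B := Nat.multinomial Finset.univ (fun k => (S k).card) with hB
  set K : Finset ((ι → ℕ) ⊕ Bool) := (Fintype.piFinset S).disjSum Finset.univ with hKdef
  have hHG : (H : ℤ) < (b : ℤ) ^ (G + 1) := by
    exact_mod_cast Nat.lt_pow_succ_log_self (by omega) H
  -- sums over terms
  have hKsum : ∀ f : (ι → ℕ) ⊕ Bool → ℤ, ∑ τ ∈ K, f τ =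
      ∑ g ∈ Fintype.piFinset S, f (Sum.inl g) + (f (Sum.inr true) + f (Sum.inr false)) := by
    intro f
    rw [hKdef, Finset.sum_disjSum, Fintype.sum_bool]
  have hsumc : ∑ τ ∈ K, |tc u c₁ c₀ τ| < (b : ℤ) ^ (G + 1) := by
    refine lt_of_le_of_lt (le_trans ?_ hH) hHG
    rw [hKsum, Finset.prod_univ_sum]
    simp only [tc, Finset.abs_prod, abs_neg]
    linarith
  have hsum0 : ∑ τ ∈ K, tc u c₁ c₀ τ * (b : ℤ) ^ tx n τ = 0 := by
    rw [hKsum]
    simp only [tc, tx]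
    have : ∑ g ∈ Fintype.piFinset S, (∏ k, u k (g k)) * (b : ℤ) ^ (∑ k, g k)
        = c₁ * (b : ℤ) ^ n + c₀ := by
      rw [← hde, Finset.prod_univ_sum]
      refine Finset.sum_congr rfl fun g _ => ?_
      rw [Finset.prod_mul_distrib, Finset.prod_pow_eq_pow_sum]
    rw [this]
    ring
  -- the linear algebra
  let Row := {r : ((ι → ℕ) ⊕ Bool) × ((ι → ℕ) ⊕ Bool) // r.1 ∈ K ∧ r.2 ∈ K ∧
    tx n r.1 ≤ tx n r.2 ∧ tx n r.2 ≤ tx n r.1 + G}
  have hcol : ∀ (f : (Σ _ : ι, ℕ) → ℤ) (τ : (ι → ℕ) ⊕ Bool), τ ∈ K →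
      ∑ c ∈ Finset.univ.sigma S, tv τ c * f c = Sum.elim (fun g => ∑ k, f ⟨k, g k⟩)
        (fun _ => 0) τ := by
    intro f τ hτ
    rw [Finset.sum_sigma]
    rcases τ with g | bo
    · have hg : ∀ k, g k ∈ S k := by simpa [hKdef] using hτ
      simp only [tv, Sum.elim_inl]
      refine Finset.sum_congr rfl fun k _ => ?_
      have hk := hg k
      rw [Finset.sum_eq_single (g k)]
      · simp
      · intro i _ hi
        rw [if_neg, zero_mul]
        intro h
        have h' : (⟨k, i⟩ : Σ _ : ι, ℕ) = ⟨k, g k⟩ := h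
        simp only [Sigma.mk.injEq, heq_eq_eq, true_and] at h'
        exact hi h'
      · intro h; exact absurd hk h
    · simp [tv]
  have hval' : ∀ τ ∈ K, (tx n τ : ℤ) = ∑ c ∈ Finset.univ.sigma S, tv τ c * cx c + tg τ * (n : ℤ) := by
    intro τ hτ
    rw [hcol cx τ hτ]
    rcases τ with g | bo
    · simp [tx, tg, cx]
    · cases bo <;> simp [tx, tg]
  obtain ⟨lam₀, q₀, hq₀, hq₀B, hlam₀⟩ := cramer (Row := Row) (Finset.univ.sigma S)
    (fun r c => tv r.1.2 c - tv r.1.1 c) (fun r => tg r.1.2 - tg r.1.1)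
    (fun r => (tx n r.1.2 : ℤ) - tx n r.1.1) cx (n : ℤ) B G
    (by
      rintro ⟨⟨τ, τ'⟩, h1, h2, h3, h4⟩
      simp only at h1 h2 h3 h4 ⊢
      rw [hval' τ h1, hval' τ' h2]
      simp only [sub_mul, Finset.sum_sub_distrib]
      ring)
    (by
      rintro ⟨⟨τ, τ'⟩, h1, h2, h3, h4⟩
      simp only at h1 h2 h3 h4 ⊢
      rw [abs_of_nonneg (by omega)]
      omega)
    (by
      intro p ρ κ hK hκ
      exact minor_bound S p (fun a => (ρ a).1.2) (fun a => (ρ a).1.1) κ hK hκ)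
    (by
      rw [Finset.card_sigma]
      exact_mod_cast hN)
  -- make `q` positive
  obtain ⟨lam, q, hq0, hqB, hlam⟩ : ∃ (lam : (Σ _ : ι, ℕ) → ℤ) (q : ℕ), 0 < q ∧ q ≤ B ∧
      ∀ r : Row, ∑ c ∈ Finset.univ.sigma S, (tv r.1.2 c - tv r.1.1 c) * lam c +
        (tg r.1.2 - tg r.1.1) * (q : ℤ) = 0 := by
    have habs := abs_le.1 hq₀B
    rcases lt_or_gt_of_ne hq₀ with h | h
    · refine ⟨fun c => -lam₀ c, q₀.natAbs, by omega, by omega, fun r => ?_⟩
      have h1 := hlam₀ r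
      have h2 : ((q₀.natAbs : ℕ) : ℤ) = -q₀ := by omega
      rw [h2]
      simp only [mul_neg, Finset.sum_neg_distrib]
      linarith
    · refine ⟨lam₀, q₀.natAbs, by omega, by omega, fun r => ?_⟩
      have h1 := hlam₀ r
      have h2 : ((q₀.natAbs : ℕ) : ℤ) = q₀ := by omega
      rw [h2]
      exact h1
  -- the labels
  obtain ⟨ℓ, hℓ1, hℓ2, hℓ3, hℓ⟩ : ∃ ℓ : (ι → ℕ) ⊕ Bool → ℤ,
      (∀ g, ℓ (Sum.inl g) = ∑ k, lam ⟨k, g k⟩) ∧
      ℓ (Sum.inr true) = q ∧ ℓ (Sum.inr false) = 0 ∧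
      ∀ τ ∈ K, ℓ τ = ∑ c ∈ Finset.univ.sigma S, tv τ c * lam c + tg τ * (q : ℤ) := by
    refine ⟨fun τ => Sum.elim (fun g => ∑ k, lam ⟨k, g k⟩)
      (fun _ => 0) τ + tg τ * (q : ℤ), ?_, ?_, ?_, ?_⟩
    · intro g; simp [tg]
    · simp [tg]
    · simp [tg]
    · intro τ hτ
      rw [hcol lam τ hτ]
  have hclose : ∀ τ ∈ K, ∀ τ' ∈ K, tx n τ ≤ tx n τ' → tx n τ' ≤ tx n τ + G → ℓ τ = ℓ τ' := by
    intro τ h1 τ' h2 h3 h4
    have h5 := hlam ⟨(τ, τ'), h1, h2, h3, h4⟩
    simp only at h5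
    rw [hℓ τ h1, hℓ τ' h2]
    simp only [sub_mul, Finset.sum_sub_distrib] at h5
    linarith
  have hclus := cluster b hb (tx n) (tc u c₁ c₀) G ℓ K.card K rfl hsumc hsum0 hclose
  -- the polynomials
  obtain ⟨M, hM⟩ : ∃ M : ℕ, ∀ k, ∀ i ∈ S k, |lam ⟨k, i⟩| ≤ M := by
    refine ⟨(∑ c ∈ Finset.univ.sigma S, |lam c|).toNat, fun k i hi => ?_⟩
    have h1 := Finset.single_le_sum (f := fun c => |lam c|) (fun _ _ => abs_nonneg _)
      (Finset.mem_sigma.2 ⟨Finset.mem_univ k, hi⟩ : (⟨k, i⟩ : Σ _ : ι, ℕ) ∈ Finset.univ.sigma S)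
    have h2 : 0 ≤ ∑ c ∈ Finset.univ.sigma S, |lam c| := Finset.sum_nonneg fun _ _ => abs_nonneg _
    omega
  set D : ι → ℤ[X] := fun k => ∑ i ∈ S k, C (u k i * (b : ℤ) ^ i) * X ^ (lam ⟨k, i⟩ + M).toNat with hD
  set r₀ := Fintype.card ι with hr₀
  have hDE : ∏ k, D k = X ^ (r₀ * M) * (C (c₁ * (b : ℤ) ^ n) * X ^ q + C c₀) := by
    have hr : X ^ (r₀ * M) * (C (c₁ * (b : ℤ) ^ n) * X ^ q + C c₀)
        = C (c₁ * (b : ℤ) ^ n) * X ^ (r₀ * M + q) + C c₀ * X ^ (r₀ * M) := by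
      rw [pow_add]; ring
    rw [hr]
    ext1 r
    have e1 : (∏ k, D k).coeff r = ∑ g ∈ Fintype.piFinset S,
        (if ∑ k, lam ⟨k, g k⟩ = (r : ℤ) - r₀ * M then
          (∏ k, u k (g k)) * (b : ℤ) ^ (∑ k, g k) else 0) := by
      rw [hD, Finset.prod_univ_sum, finsetSum_coeff]
      refine Finset.sum_congr rfl fun g hg => ?_
      have hg' : ∀ k, g k ∈ S k := Fintype.mem_piFinset.1 hg
      have e2 : ∏ k, C (u k (g k) * (b : ℤ) ^ (g k)) * X ^ (lam ⟨k, g k⟩ + M).toNat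
          = C ((∏ k, u k (g k)) * (b : ℤ) ^ (∑ k, g k)) *
            X ^ (∑ k, (lam ⟨k, g k⟩ + M).toNat) := by
        rw [Finset.prod_mul_distrib, Finset.prod_pow_eq_pow_sum, ← map_prod,
          Finset.prod_mul_distrib, Finset.prod_pow_eq_pow_sum]
      rw [e2, coeff_C_mul_X_pow]
      have e4 : ((∑ k, (lam ⟨k, g k⟩ + M).toNat : ℕ) : ℤ) = ∑ k, lam ⟨k, g k⟩ + r₀ * M := by
        push_cast
        rw [hr₀, ← Finset.card_univ, ← nsmul_eq_mul, ← Finset.sum_const, ← Finset.sum_add_distrib]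
        refine Finset.sum_congr rfl fun k _ => ?_
        have := abs_le.1 (hM k _ (hg' k))
        omega
      have e3 : (r = ∑ k, (lam ⟨k, g k⟩ + M).toNat) ↔
          (∑ k, lam ⟨k, g k⟩ = (r : ℤ) - r₀ * M) := by
        constructor
        · intro h
          have : (r : ℤ) = ((∑ k, (lam ⟨k, g k⟩ + M).toNat : ℕ) : ℤ) := by exact_mod_cast h
          linarith
        · intro h
          have : (r : ℤ) = ((∑ k, (lam ⟨k, g k⟩ + M).toNat : ℕ) : ℤ) := by linarith
          exact_mod_cast this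
      simp only [e3]
    have h1 := hclus ((r : ℤ) - r₀ * M)
    rw [hKsum] at h1
    simp only [hℓ1, hℓ2, hℓ3, tc, tx, pow_zero, mul_one] at h1
    rw [e1, coeff_add, coeff_C_mul_X_pow, coeff_C_mul_X_pow]
    have e4 : ((q : ℤ) = (r : ℤ) - r₀ * M) ↔ (r = r₀ * M + q) := by
      constructor
      · intro h
        have : (r : ℤ) = ((r₀ * M + q : ℕ) : ℤ) := by push_cast; linarith
        exact_mod_cast this
      · intro h
        have : (r : ℤ) = ((r₀ * M + q : ℕ) : ℤ) := by exact_mod_cast h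
        push_cast at this; linarith
    have e5 : ((0 : ℤ) = (r : ℤ) - r₀ * M) ↔ (r = r₀ * M) := by
      constructor
      · intro h
        have : (r : ℤ) = ((r₀ * M : ℕ) : ℤ) := by push_cast; linarith
        exact_mod_cast this
      · intro h
        have : (r : ℤ) = ((r₀ * M : ℕ) : ℤ) := by exact_mod_cast h
        push_cast at this; linarith
    simp only [e4, e5] at h1
    have e6 : (if r = r₀ * M + q then -c₁ * (b : ℤ) ^ n else 0)
        = -(if r = r₀ * M + q then c₁ * (b : ℤ) ^ n else 0) := by split_ifs <;> simp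
    have e7 : (if r = r₀ * M then -c₀ else 0) = -(if r = r₀ * M then c₀ else 0) := by
      split_ifs <;> simp
    rw [e6, e7] at h1
    linarith
  obtain ⟨D', h1, h2⟩ := strip _ (r₀ * M) D hDE
  refine ⟨q, hq0, hqB, D', h1, fun k => ?_⟩
  rw [h2, hD, eval_finsetSum]
  simp

end Pool.Agent.J4.H23.SF.R
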