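import Mathlib

/-!
# `X ^ q + 2 ^ (2 ^ m)` is irreducible for `q < 2 ^ (m + 1)`
-/

set_option autoImplicit false

namespace Pool.Agent.J4.H23.SF

open Polynomial IntermediateField

theorem irr2 (b g : ℕ) : Irreducible (X ^ (2 ^ b) - C (-(2 : ℚ) ^ (g * 2 ^ b)) : ℚ[X]) := by
  have h1 : Irreducible (cyclotomic (2 ^ (b + 1)) ℚ) := cyclotomic.irreducible_rat (by positivity)
  have h2 : cyclotomic (2 ^ (b + 1)) ℚ = X ^ (2 ^ b) + 1 := by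
    rw [cyclotomic_prime_pow_eq_geom_sum Nat.prime_two]
    simp [Finset.sum_range_succ, add_comm]
  rw [h2] at h1
  have ha : ((2 : ℚ) ^ g)⁻¹ ≠ 0 := by positivity
  have hu : IsUnit ((2 : ℚ) ^ g)⁻¹ := ha.isUnit
  let A : ℚ[X] ≃ₐ[ℚ] ℚ[X] := algEquivCMulXAddC (((2 : ℚ) ^ g)⁻¹) 0
  have h3 : Irreducible (A (X ^ (2 ^ b) + 1)) := (MulEquiv.irreducible_iff A).2 h1
  have h4 : A (X ^ (2 ^ b) + 1) = C (((2 : ℚ) ^ (g * 2 ^ b))⁻¹) * (X ^ (2 ^ b) - C (-(2 : ℚ) ^ (g * 2 ^ b))) := by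
    have h5 : A X = C (((2 : ℚ) ^ g)⁻¹) * X := by
      simp [A, algEquivCMulXAddC]
    rw [map_add, map_pow, map_one, h5, mul_pow, ← C_pow, mul_sub, ← C_mul]
    have h6 : ((2 : ℚ) ^ g)⁻¹ ^ (2 ^ b) = ((2 : ℚ) ^ (g * 2 ^ b))⁻¹ := by
      rw [inv_pow, ← pow_mul]
    rw [h6]
    have h7 : ((2 : ℚ) ^ (g * 2 ^ b))⁻¹ * -(2 : ℚ) ^ (g * 2 ^ b) = -1 := by
      have : (2 : ℚ) ^ (g * 2 ^ b) ≠ 0 := by positivity
      field_simp
    rw [h7]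
    simp
  rw [h4] at h3
  have hC : IsUnit (C (((2 : ℚ) ^ (g * 2 ^ b))⁻¹) : ℚ[X]) :=
    isUnit_C.2 (inv_ne_zero (by positivity)).isUnit
  exact (irreducible_isUnit_mul hC).1 h3

theorem odd_pow_ne (m ℓ : ℕ) (hℓ : ℓ.Prime) (hodd : Odd ℓ) (r : ℚ)
    (h : r ^ ℓ = 2 ^ (2 ^ m) ∨ r ^ ℓ = -2 ^ (2 ^ m)) : False := by
  haveI : Fact (Nat.Prime 2) := ⟨Nat.prime_two⟩
  have h1 : padicValRat 2 (r ^ ℓ) = (2 ^ m : ℕ) := by
    have h2 : padicValRat 2 (2 : ℚ) = 1 := by exact_mod_cast padicValRat.self (p := 2) (by norm_num)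
    rcases h with h | h
    · rw [h, padicValRat.pow, h2]; push_cast; ring
    · rw [h, padicValRat.neg, padicValRat.pow, h2]; push_cast; ring
  rw [padicValRat.pow] at h1
  have h2 : (ℓ : ℤ) ∣ ((2 ^ m : ℕ) : ℤ) := ⟨_, h1.symm⟩
  have h3 : ℓ ∣ 2 ^ m := by exact_mod_cast h2
  have h4 : ℓ ∣ 2 := hℓ.dvd_of_dvd_pow h3
  have h5 : ℓ = 2 := (Nat.prime_dvd_prime_iff_eq hℓ Nat.prime_two).1 h4
  rw [h5] at hodd
  exact absurd hodd (by decide)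

theorem kummer_step.{u} {K : Type u} [Field K] {a : K} {m n : ℕ} (hm0 : 0 < m)
    (hm : Irreducible (X ^ m - C a)) (hn : Odd n)
    (ha : ∀ p : ℕ, p.Prime → p ∣ n → ∀ b : K, b ^ p ≠ (-1) ^ m * (-a)) :
    Irreducible (X ^ (n * m) - C a) := by
  apply X_pow_mul_sub_C_irreducible hm
  intro E _ _ x hx
  have hint : IsIntegral K x := not_not.mp fun h ↦ by
    simpa only [degree_zero, degree_X_pow_sub_C hm0,
      WithBot.natCast_ne_bot] using congr_arg degree (hx.symm.trans (dif_neg h))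
  apply X_pow_sub_C_irreducible_of_odd hn
  intro q hq hqn b hb
  apply ha q hq hqn (Algebra.norm _ b)
  rw [← map_pow, hb, ← adjoin.powerBasis_gen hint,
    Algebra.PowerBasis.norm_gen_eq_coeff_zero_minpoly]
  simp [minpoly_gen, hx, hm0.ne]

theorem irr (m q : ℕ) (hq : 0 < q) (hqn : q < 2 ^ (m + 1)) :
    Irreducible (X ^ q - C (-(2 : ℚ) ^ (2 ^ m)) : ℚ[X]) := by
  obtain ⟨b, q', hodd, hqq⟩ := Nat.exists_eq_two_pow_mul_odd hq.ne'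
  have hb : b ≤ m := by
    by_contra hc
    push Not at hc
    have h1 : 2 ^ (m + 1) ≤ 2 ^ b := Nat.pow_le_pow_right (by norm_num) hc
    have h2 : 0 < q' := hodd.pos
    nlinarith
  have hg : (2 : ℕ) ^ m = 2 ^ (m - b) * 2 ^ b := by rw [← pow_add]; congr 1; omega
  have h1 := irr2 b (2 ^ (m - b))
  rw [← hg] at h1
  rw [hqq, mul_comm]
  apply kummer_step (by positivity) h1 hodd
  intro ℓ hℓ hℓd y hy
  have hℓo : Odd ℓ := hodd.of_dvd_nat hℓd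
  refine odd_pow_ne m ℓ hℓ hℓo y ?_
  rw [hy]
  rcases neg_one_pow_eq_or ℚ (2 ^ b) with h | h
  · left; rw [h]; ring
  · right; rw [h]; ring

end Pool.Agent.J4.H23.SF
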