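import Pool.Agent.J4.H23.SF.Engine3
import Pool.Agent.J4.H23.SF.Irr

/-!
# Sparse factors of multiples of Fermat numbers
-/

set_option autoImplicit false

namespace Pool.Agent.J4.H23.SF

open Finset Polynomial

/-- If `D * E = c (2 ^ (2 ^ m) X ^ q + 1)` with integer polynomials, then `D` or `E` is a constant
dividing `c`. -/
theorem poly_dvd (m q : ℕ) (hq : 0 < q) (hqn : q < 2 ^ (m + 1)) (c : ℤ) (hc : c ≠ 0)
    (D E : ℤ[X]) (hDE : D * E = C (c * 2 ^ (2 ^ m)) * X ^ q + C c) :
    (∃ z : ℤ, D = C z ∧ z ∣ c) ∨ (∃ z : ℤ, E = C z ∧ z ∣ c) := by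
  have hirr := irr m q hq hqn
  have hN : (2 : ℚ) ^ (2 ^ m) ≠ 0 := by positivity
  have hcQ : (c : ℚ) ≠ 0 := by exact_mod_cast hc
  set φ := Int.castRingHom ℚ with hφ
  have hinj : Function.Injective φ := Int.cast_injective
  have h0 : D.coeff 0 * E.coeff 0 = c := by
    rw [← mul_coeff_zero, hDE]
    simp [coeff_X_pow, hq.ne]
  have hD0 : D.coeff 0 ≠ 0 := by rintro h; rw [h, zero_mul] at h0; exact hc h0.symm
  have hE0 : E.coeff 0 ≠ 0 := by rintro h; rw [h, mul_zero] at h0; exact hc h0.symm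
  have hrev : (D.map φ).reverse * (E.map φ).reverse = C (c : ℚ) * (X ^ q - C (-(2 : ℚ) ^ (2 ^ m))) := by
    rw [← reverse_mul_of_domain, ← Polynomial.map_mul, hDE]
    have h2 : (C (c * 2 ^ (2 ^ m)) * X ^ q + C c : ℤ[X]).map φ
        = C ((c : ℚ) * 2 ^ (2 ^ m)) * X ^ q + C (c : ℚ) := by
      simp only [Polynomial.map_add, Polynomial.map_mul, Polynomial.map_pow, map_X, map_C]
      congr 2
      · simp [hφ]
    rw [h2]
    have hd : (C ((c : ℚ) * 2 ^ (2 ^ m)) * X ^ q + C (c : ℚ)).natDegree = q := by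
      rw [natDegree_add_C, natDegree_C_mul_X_pow q _ (mul_ne_zero hcQ hN)]
    ext n
    rw [coeff_reverse, hd]
    by_cases hnq : n ≤ q
    · rw [revAt_le hnq]
      by_cases h0 : n = 0
      · subst h0
        have e1 : ¬ (q = 0) := hq.ne'
        have e2 : ¬ (0 = q) := hq.ne
        rw [coeff_add, coeff_C_mul, coeff_X_pow, coeff_C, coeff_C_mul, coeff_sub, coeff_X_pow, coeff_C]
        simp [e1, e2]
      · by_cases hn : n = q
        · subst hn
          rw [coeff_add, coeff_C_mul, coeff_X_pow, coeff_C, coeff_C_mul, coeff_sub, coeff_X_pow, coeff_C]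
          have : ¬ (0 = n) := fun h => h0 h.symm
          simp [this, h0]
        · have e1 : ¬ (q - n = q) := by omega
          have e2 : ¬ (q - n = 0) := by omega
          rw [coeff_add, coeff_C_mul, coeff_X_pow, coeff_C, coeff_C_mul, coeff_sub, coeff_X_pow, coeff_C]
          simp [e1, e2, h0, hn]
    · have e1 : revAt q n = n := revAt_eq_self_of_lt (by omega)
      rw [e1]
      have e2 : ¬ (n = q) := by omega
      have e3 : ¬ (n = 0) := by omega
      rw [coeff_add, coeff_C_mul, coeff_X_pow, coeff_C, coeff_C_mul, coeff_sub, coeff_X_pow, coeff_C]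
      simp [e2, e3]
  have hu : ∀ F : ℤ[X], F.coeff 0 ≠ 0 → IsUnit (F.map φ).reverse → F = C (F.coeff 0) := by
    intro F hF hF'
    have h1 : (F.map φ).reverse.natDegree = 0 := natDegree_eq_zero_of_isUnit hF'
    have h2 : (F.map φ).natDegree = (F.map φ).reverse.natDegree + (F.map φ).natTrailingDegree :=
      natDegree_eq_reverse_natDegree_add_natTrailingDegree _
    have h3 : (F.map φ).natTrailingDegree = 0 := by
      apply natTrailingDegree_eq_zero_of_constantCoeff_ne_zero
      rw [constantCoeff_apply, coeff_map]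
      simpa [hφ] using hF
    have h4 : F.natDegree = 0 := by
      rw [h1, h3, natDegree_map_eq_of_injective hinj] at h2
      exact h2
    exact eq_C_of_natDegree_eq_zero h4
  have hass : Irreducible ((D.map φ).reverse * (E.map φ).reverse) := by
    rw [hrev]
    have : IsUnit (C (c : ℚ)) := isUnit_C.2 hcQ.isUnit
    exact (irreducible_isUnit_mul this).2 hirr
  rcases hass.isUnit_or_isUnit rfl with h | h
  · left
    exact ⟨_, hu D hD0 h, ⟨_, h0.symm⟩⟩
  · right
    exact ⟨_, hu E hE0 h, ⟨_, by rw [mul_comm]; exact h0.symm⟩⟩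

theorem fermat {ι : Type*} [Fintype ι] [DecidableEq ι] (m : ℕ) (c : ℤ) (hc : c ≠ 0)
    (S : ι → Finset ℕ) (u : ι → ℕ → ℤ)
    (hde : ∏ k, ∑ i ∈ S k, u k i * 2 ^ i = c * (2 ^ (2 ^ m) + 1))
    (H : ℕ) (hH : (∏ k, ∑ i ∈ S k, |u k i|) + 2 * |c| ≤ H)
    (hN : ((∑ k, (S k).card) + 1) * Nat.multinomial Finset.univ (fun k => (S k).card) *
      Nat.log 2 H < 2 ^ m) :
    ∃ k₀, ∏ k ∈ Finset.univ.erase k₀, ∑ i ∈ S k, u k i * 2 ^ i ∣ c := by
  classical
  have hH2 : 2 ≤ H := by
    have h1 : 0 ≤ ∏ k, ∑ i ∈ S k, |u k i| :=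
      Finset.prod_nonneg fun _ _ => Finset.sum_nonneg fun _ _ => abs_nonneg _
    have h2 : 1 ≤ |c| := Int.one_le_abs hc
    have : (2 : ℤ) ≤ H := by linarith
    exact_mod_cast this
  obtain ⟨q, hq0, hqB, D, hD, hD1⟩ := R.engine3 2 le_rfl (2 ^ m) c c S u
    (by push_cast; rw [hde]; ring) H (by linarith) hN
  push_cast at hD hD1
  have hqn : q < 2 ^ (m + 1) := by
    have h1 : 1 ≤ Nat.log 2 H := Nat.log_pos (by norm_num) hH2
    have h2 : Nat.multinomial Finset.univ (fun k => (S k).card) ≤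
        ((∑ k, (S k).card) + 1) * Nat.multinomial Finset.univ (fun k => (S k).card) *
          Nat.log 2 H := by
      calc Nat.multinomial Finset.univ (fun k => (S k).card)
          = 1 * Nat.multinomial Finset.univ (fun k => (S k).card) * 1 := by ring
        _ ≤ _ := Nat.mul_le_mul (Nat.mul_le_mul_right _ (by omega)) h1
    rw [pow_succ]
    omega
  have hc2 : c * 2 ^ (2 ^ m) ≠ 0 := mul_ne_zero hc (by positivity)
  obtain ⟨k₀, hk₀⟩ : ∃ k₀, (D k₀).natDegree ≠ 0 := by
    by_contra hcon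
    push Not at hcon
    have h1 : (∏ k, D k).natDegree = 0 := by
      have := natDegree_prod_le (Finset.univ : Finset ι) D
      rw [Finset.sum_eq_zero (fun k _ => hcon k)] at this
      omega
    rw [hD, natDegree_add_C, natDegree_C_mul_X_pow q _ hc2] at h1
    omega
  refine ⟨k₀, ?_⟩
  rw [← Finset.mul_prod_erase Finset.univ D (Finset.mem_univ k₀)] at hD
  rcases poly_dvd m q hq0 hqn c hc _ _ hD with ⟨z, hz, -⟩ | ⟨z, hz, hzc⟩
  · exact absurd (by rw [hz, natDegree_C]) hk₀
  · have h1 := congrArg (fun f => f.eval 1) hz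
    simp only [eval_C, eval_prod] at h1
    rw [Finset.prod_congr rfl (fun k _ => (hD1 k).symm), h1]
    exact hzc

theorem multinomial_le {ι : Type*} [Fintype ι] [DecidableEq ι] (a : ι → ℕ) :
    Nat.multinomial Finset.univ a ≤ Fintype.card ι ^ (∑ k, a k) := by
  rw [← card_words _ a rfl]
  refine (Finset.card_filter_le _ _).trans ?_
  rw [Finset.card_univ, Fintype.card_fun, Fintype.card_fin]

end Pool.Agent.J4.H23.SF
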