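import Pool.Agent.J4.H23.SF.Det

/-!
# Minors of matrices with several incidence parts
-/

set_option autoImplicit false

namespace Pool.Agent.J4.H23.SF

open Finset

/-- The number of words with a given content. -/
theorem card_words {ι : Type*} [Fintype ι] [DecidableEq ι] (p : ℕ) (a : ι → ℕ)
    (ha : ∑ k, a k = p) :
    (Finset.univ.filter (fun φ : Fin p → ι => ∀ k, (Finset.univ.filter (fun i => φ i = k)).card = a k)).card
      = Nat.multinomial Finset.univ a := by
  classical
  set s : ι →₀ ℕ := Finsupp.equivFunOnFinite.symm a with hs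
  have hsa : ∀ k, s k = a k := fun k => rfl
  -- the content of a word
  have h1 : (∑ k : ι, (MvPolynomial.X k : MvPolynomial ι ℕ)) ^ p
      = ∑ φ : Fin p → ι, ∏ i, MvPolynomial.X (φ i) := by
    have := Finset.prod_univ_sum (fun _ : Fin p => (Finset.univ : Finset ι))
      (fun _ k => (MvPolynomial.X k : MvPolynomial ι ℕ))
    rw [Fintype.piFinset_univ] at this
    rw [← this]
    simp
  have h2 := Finset.sum_pow_eq_sum_piAntidiag (Finset.univ : Finset ι)
    (fun k => (MvPolynomial.X k : MvPolynomial ι ℕ)) p
  rw [h1] at h2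
  have h3 := congrArg (MvPolynomial.coeff s) h2
  rw [MvPolynomial.coeff_sum, MvPolynomial.coeff_sum] at h3
  have h4 : ∀ φ : Fin p → ι, MvPolynomial.coeff s (∏ i, (MvPolynomial.X (φ i) : MvPolynomial ι ℕ))
      = if (∀ k, (Finset.univ.filter (fun i => φ i = k)).card = a k) then 1 else 0 := by
    intro φ
    have e1 : (∏ i, (MvPolynomial.X (φ i) : MvPolynomial ι ℕ))
        = MvPolynomial.monomial (∑ i, Finsupp.single (φ i) 1) 1 := by
      rw [MvPolynomial.monomial_sum_one]
      rfl
    rw [e1, MvPolynomial.coeff_monomial]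
    have e2 : (∑ i, Finsupp.single (φ i) 1 = s) ↔
        (∀ k, (Finset.univ.filter (fun i => φ i = k)).card = a k) := by
      rw [Finsupp.ext_iff]
      refine forall_congr' fun k => ?_
      rw [Finsupp.finsetSum_apply, hsa, Finset.card_filter]
      simp only [Finsupp.single_apply]
    simp only [e2]
  rw [Finset.sum_congr rfl (fun φ _ => h4 φ)] at h3
  rw [Finset.card_filter, h3, Finset.sum_eq_single a]
  · have e3 : (∏ i : ι, (MvPolynomial.X i : MvPolynomial ι ℕ) ^ a i)
        = MvPolynomial.monomial s 1 := by
      rw [MvPolynomial.monomial_eq, map_one, one_mul, Finsupp.prod_fintype _ _ (by simp)]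
      rfl
    rw [e3, ← MvPolynomial.C_eq_coe_nat, MvPolynomial.coeff_C_mul, MvPolynomial.coeff_monomial]
    simp
  · intro a' _ ha'
    have e3 : (∏ i : ι, (MvPolynomial.X i : MvPolynomial ι ℕ) ^ a' i)
        = MvPolynomial.monomial (Finsupp.equivFunOnFinite.symm a') 1 := by
      rw [MvPolynomial.monomial_eq, map_one, one_mul, Finsupp.prod_fintype _ _ (by simp)]
      rfl
    rw [e3, ← MvPolynomial.C_eq_coe_nat, MvPolynomial.coeff_C_mul, MvPolynomial.coeff_monomial,
      if_neg, mul_zero]
    intro h
    exact ha' (Finsupp.equivFunOnFinite.symm.injective h)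
  · intro h
    exfalso
    apply h
    rw [Finset.mem_piAntidiag]
    exact ⟨ha, fun i _ => Finset.mem_univ i⟩

theorem multinomial_mono {ι : Type*} [DecidableEq ι] (s : Finset ι) (a a' : ι → ℕ)
    (h : ∀ k ∈ s, a k ≤ a' k) : Nat.multinomial s a ≤ Nat.multinomial s a' := by
  classical
  induction s using Finset.induction_on with
  | empty => simp
  | insert k s hk ih =>
    rw [Nat.multinomial_insert hk, Nat.multinomial_insert hk]
    apply Nat.mul_le_mul _ (ih fun j hj => h j (Finset.mem_insert_of_mem hj))
    have h1 := h k (Finset.mem_insert_self _ _)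
    have h2 : ∑ i ∈ s, a i ≤ ∑ i ∈ s, a' i :=
      Finset.sum_le_sum fun j hj => h j (Finset.mem_insert_of_mem hj)
    calc (a k + ∑ i ∈ s, a i).choose (a k) = (a k + ∑ i ∈ s, a i).choose (∑ i ∈ s, a i) :=
          Nat.choose_symm_add
      _ ≤ (a' k + ∑ i ∈ s, a i).choose (∑ i ∈ s, a i) := Nat.choose_le_choose _ (by omega)
      _ = (a' k + ∑ i ∈ s, a i).choose (a' k) := Nat.choose_symm_add.symm
      _ ≤ (a' k + ∑ i ∈ s, a' i).choose (a' k) := Nat.choose_le_choose _ (by omega)

/-- The bound for several classes. -/
theorem abs_det_le_multinomial {p : ℕ} {ι : Type*} [Fintype ι] [DecidableEq ι]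
    (M : Matrix (Fin p) (Fin p) ℤ) (cls : Fin p → ι)
    (h : ∀ k a, Inc (fun b => if cls b = k then M a b else 0)) :
    |M.det| ≤ Nat.multinomial Finset.univ
      (fun k => (Finset.univ.filter (fun b => cls b = k)).card) := by
  classical
  set g : Fin p → ι → (Fin p → ℤ) := fun a k b => if cls b = k then M a b else 0 with hg
  have hM : (M : Fin p → Fin p → ℤ) = fun a => ∑ k, g a k := by
    ext a b
    simp [hg, Finset.sum_apply]
  have hexp : M.det = ∑ φ : Fin p → ι, Matrix.det (Matrix.of fun a => g a (φ a)) := by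
    have := (Matrix.detRowAlternating (n := Fin p) (R := ℤ)).toMultilinearMap.map_sum
      (α := fun _ => ι) g
    rw [← hM] at this
    exact this
  have hzero : ∀ φ : Fin p → ι, ¬ (∀ k, (Finset.univ.filter (fun i => φ i = k)).card =
      (Finset.univ.filter (fun b => cls b = k)).card) →
      Matrix.det (Matrix.of fun a => g a (φ a)) = 0 := by
    intro φ hφ
    push Not at hφ
    have hs1 : ∑ k, (Finset.univ.filter (fun i => φ i = k)).card = p := by
      have := (Finset.card_eq_sum_card_fiberwise (f := φ) (s := Finset.univ) (t := Finset.univ)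
        (fun _ _ => Finset.mem_coe.2 (Finset.mem_univ _))).symm
      simpa using this
    have hs2 : ∑ k, (Finset.univ.filter (fun i => cls i = k)).card = p := by
      have := (Finset.card_eq_sum_card_fiberwise (f := cls) (s := Finset.univ) (t := Finset.univ)
        (fun _ _ => Finset.mem_coe.2 (Finset.mem_univ _))).symm
      simpa using this
    obtain ⟨k, hk⟩ : ∃ k, (Finset.univ.filter (fun b => cls b = k)).card <
        (Finset.univ.filter (fun i => φ i = k)).card := by
      by_contra hcon
      push Not at hcon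
      obtain ⟨k, hk⟩ := hφ
      have := Finset.sum_lt_sum (s := Finset.univ) (fun k _ => hcon k)
        ⟨k, Finset.mem_univ k, lt_of_le_of_ne (hcon k) hk⟩
      omega
    apply det_eq_zero_of_card _ _ _ hk
    intro a ha b hb
    have ha' : φ a = k := by simpa using ha
    have hb' : ¬ cls b = k := by simpa using hb
    simp [hg, ha', hb']
  have hone : ∀ φ : Fin p → ι, |Matrix.det (Matrix.of fun a => g a (φ a))| ≤ 1 := by
    intro φ
    apply abs_det_le_one
    intro a
    exact h (φ a) a
  rw [hexp]
  have hs2 : ∑ k, (Finset.univ.filter (fun i => cls i = k)).card = p := by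
    have := (Finset.card_eq_sum_card_fiberwise (f := cls) (s := Finset.univ) (t := Finset.univ)
      (fun _ _ => Finset.mem_coe.2 (Finset.mem_univ _))).symm
    simpa using this
  rw [← card_words p _ hs2]
  calc |∑ φ : Fin p → ι, Matrix.det (Matrix.of fun a => g a (φ a))|
      ≤ ∑ φ : Fin p → ι, |Matrix.det (Matrix.of fun a => g a (φ a))| :=
        Finset.abs_sum_le_sum_abs _ _
    _ ≤ ∑ φ : Fin p → ι, (if (∀ k, (Finset.univ.filter (fun i => φ i = k)).card =
      (Finset.univ.filter (fun b => cls b = k)).card) then (1 : ℤ) else 0) := by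
        refine Finset.sum_le_sum fun φ _ => ?_
        split_ifs with hc
        · exact hone φ
        · rw [hzero φ hc, abs_zero]
    _ = _ := by
        rw [Finset.card_filter]
        push_cast
        rfl

end Pool.Agent.J4.H23.SF
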